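import Pool.Agent.Helper15.LP.Defs
import Pool.Agent.Helper15.LR.B1a
import Pool.Agent.Helper15.LR.B1b

set_option autoImplicit false

/-!
RSET: existence of the corrector set.
-/

open Finset
open scoped Classical
open Pool.Agent.Helper15.LR

namespace Pool.Agent.Helper15.LP

noncomputable section

variable {V : Type} [Fintype V]

theorem RSET_mem (G : SimpleGraph V) (u v : V) : u ∈ Nb G v ↔ v ∈ Nb G u := by
  simp [Nb, G.adj_comm]

theorem RSET_dc (G : SimpleGraph V) (D : ℕ) (hG : Reg G D) (f : V → ℝ) :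
    ∑ v, ∑ b ∈ Nb G v, f b = D * ∑ b, f b := by
  have h1 : ∀ v, ∑ b ∈ Nb G v, f b = ∑ b, if b ∈ Nb G v then f b else 0 := by
    intro v
    rw [← Finset.sum_filter]
    congr 1
    ext b
    simp
  calc ∑ v, ∑ b ∈ Nb G v, f b = ∑ v, ∑ b, if b ∈ Nb G v then f b else 0 :=
        Finset.sum_congr rfl fun v _ => h1 v
    _ = ∑ b, ∑ v, if b ∈ Nb G v then f b else 0 := Finset.sum_comm
    _ = ∑ b, D * f b := by
        refine Finset.sum_congr rfl fun b _ => ?_
        have h2 : ∀ v, (if b ∈ Nb G v then f b else 0) = if v ∈ Nb G b then f b else 0 := by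
          intro v
          exact if_congr (RSET_mem G b v) rfl rfl
        rw [Finset.sum_congr rfl fun v _ => h2 v, ← Finset.sum_filter, Finset.sum_const,
          nsmul_eq_mul]
        have h3 : (univ.filter (fun v => v ∈ Nb G b)) = Nb G b := by ext v; simp
        rw [h3, hG b]
    _ = D * ∑ b, f b := by rw [Finset.mul_sum]

theorem RSET_contr (G : SimpleGraph V) (D : ℕ) (hG : Reg G D) (hD : 1 ≤ D) (y : V → ℝ) :
    ∑ v, (Av G y v / D) ^ 2 ≤ S2 y := by
  have hD0 : (0 : ℝ) < D := by exact_mod_cast hD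
  have h1 : ∀ v, (Av G y v / D) ^ 2 ≤ (∑ b ∈ Nb G v, y b ^ 2) / D := by
    intro v
    have h2 : (Av G y v) ^ 2 ≤ D * ∑ b ∈ Nb G v, y b ^ 2 := by
      have := sq_sum_le_card_mul_sum_sq (s := Nb G v) (f := y)
      rw [hG v] at this
      exact this
    rw [div_pow, div_le_div_iff₀ (by positivity) hD0]
    nlinarith [h2]
  calc ∑ v, (Av G y v / D) ^ 2 ≤ ∑ v, (∑ b ∈ Nb G v, y b ^ 2) / D :=
        Finset.sum_le_sum fun v _ => h1 v
    _ = (D * ∑ b, y b ^ 2) / D := by
        rw [← Finset.sum_div, RSET_dc G D hG (fun b => y b ^ 2)]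
    _ = S2 y := by
        unfold S2
        field_simp

/-- the coefficient vectors of the random set -/
def RSET_c (G : SimpleGraph V) (D : ℕ) (y : V → ℝ) (b v : V) : ℝ :=
  if b ∈ Nb G v then y b - Av G y v / D else 0

theorem RSET_csum (G : SimpleGraph V) (D : ℕ) (hG : Reg G D) (hD : 1 ≤ D) (y : V → ℝ) :
    ∑ b, ∑ v, RSET_c G D y b v ^ 2 = D * ∑ v, (y v - Av G y v / D) * (y v + Av G y v / D) := by
  have hD0 : (0 : ℝ) < D := by exact_mod_cast hD
  rw [Finset.sum_comm]
  have h1 : ∀ v, ∑ b, RSET_c G D y b v ^ 2 = ∑ b ∈ Nb G v, y b ^ 2 - D * (Av G y v / D) ^ 2 := by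
    intro v
    have h2 : ∑ b, RSET_c G D y b v ^ 2 = ∑ b ∈ Nb G v, (y b - Av G y v / D) ^ 2 := by
      have h3 : ∀ b, RSET_c G D y b v ^ 2 = if b ∈ Nb G v then (y b - Av G y v / D) ^ 2 else 0 := by
        intro b
        unfold RSET_c
        split_ifs <;> simp
      rw [Finset.sum_congr rfl fun b _ => h3 b, ← Finset.sum_filter]
      congr 1
      ext b
      simp
    rw [h2]
    have h4 : ∀ b, (y b - Av G y v / D) ^ 2 =
        y b ^ 2 - 2 * (Av G y v / D) * y b + (Av G y v / D) ^ 2 := by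
      intro b; ring
    rw [Finset.sum_congr rfl fun b _ => h4 b, Finset.sum_add_distrib, Finset.sum_sub_distrib,
      ← Finset.mul_sum, Finset.sum_const, nsmul_eq_mul, hG v]
    have h5 : ∑ b ∈ Nb G v, y b = D * (Av G y v / D) := by
      unfold Av
      field_simp
    rw [h5]
    ring
  rw [Finset.sum_congr rfl fun v _ => h1 v, Finset.sum_sub_distrib,
    RSET_dc G D hG (fun b => y b ^ 2), ← Finset.mul_sum, ← mul_sub, ← Finset.sum_sub_distrib]
  congr 1
  refine Finset.sum_congr rfl fun v _ => ?_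
  ring

theorem RSET_czero (G : SimpleGraph V) (D : ℕ) (hG : Reg G D) (hD : 1 ≤ D) (y : V → ℝ) (v : V) :
    ∑ b, RSET_c G D y b v = 0 := by
  have hD0 : (0 : ℝ) < D := by exact_mod_cast hD
  unfold RSET_c
  rw [← Finset.sum_filter]
  have h3 : (univ.filter (fun b => b ∈ Nb G v)) = Nb G v := by ext b; simp
  rw [h3, Finset.sum_sub_distrib, Finset.sum_const, nsmul_eq_mul, hG v]
  unfold Av
  field_simp
  ring

theorem RSET_final (G : SimpleGraph V) (D m : ℕ) (hG : Reg G D) (hD : 1 ≤ D) (hm : 1 ≤ m)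
    (R : Finset V) (hR : GoodR G D m R) (y : V → ℝ) (ρ Q : ℝ)
    (hQ : ∑ v, (∑ b, ((if b ∈ R then 1 else 0) - ρ) * RSET_c G D y b v) ^ 2 ≤ Q) :
    ∑ v, (PR G R y v - Av G y v / D) ^ 2 ≤ Q / (25 * (m * D)) := by
  have hD0 : (0 : ℝ) < D := by exact_mod_cast hD
  have hm0 : (0 : ℝ) < m := by exact_mod_cast hm
  have hs : (0 : ℝ) < 5 * Real.sqrt (m * D) := by positivity
  have hs2 : (5 * Real.sqrt (m * D)) ^ 2 = 25 * (m * D : ℝ) := by
    rw [mul_pow, Real.sq_sqrt (by positivity)]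
    norm_num
  rw [← hs2, le_div_iff₀ (by positivity), Finset.sum_mul]
  refine le_trans (Finset.sum_le_sum fun v _ => ?_) hQ
  have hN : 0 < NR G R v := lt_of_lt_of_le hs (hR v).1
  have h1 : ∑ b, ((if b ∈ R then 1 else 0) - ρ) * RSET_c G D y b v =
      (PR G R y v - Av G y v / D) * NR G R v := by
    have h2 : ∑ b, ((if b ∈ R then 1 else 0) - ρ) * RSET_c G D y b v =
        ∑ b, (if b ∈ R then RSET_c G D y b v else 0) := by
      have h3 : ∀ b, ((if b ∈ R then (1:ℝ) else 0) - ρ) * RSET_c G D y b v =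
          (if b ∈ R then RSET_c G D y b v else 0) - ρ * RSET_c G D y b v := by
        intro b
        split_ifs <;> ring
      rw [Finset.sum_congr rfl fun b _ => h3 b, Finset.sum_sub_distrib, ← Finset.mul_sum,
        RSET_czero G D hG hD, mul_zero, sub_zero]
    rw [h2]
    have h4 : ∀ b, (if b ∈ R then RSET_c G D y b v else 0) =
        if b ∈ Nb G v ∧ b ∈ R then (y b - Av G y v / D) else 0 := by
      intro b
      unfold RSET_c
      by_cases hb : b ∈ R <;> by_cases hb2 : b ∈ Nb G v <;> simp [hb, hb2]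
    rw [Finset.sum_congr rfl fun b _ => h4 b, ← Finset.sum_filter]
    have h5 : (univ.filter (fun b => b ∈ Nb G v ∧ b ∈ R)) = (Nb G v).filter (fun b => b ∈ R) := by
      ext b; simp
    rw [h5, Finset.sum_sub_distrib, Finset.sum_const, nsmul_eq_mul]
    unfold PR
    have h6 : (((Nb G v).filter (fun b => b ∈ R)).card : ℝ) = NR G R v := rfl
    rw [h6]
    field_simp
  rw [h1, mul_pow (PR G R y v - Av G y v / D) (NR G R v) 2]
  exact mul_le_mul_of_nonneg_left (pow_le_pow_left₀ hs.le (hR v).1 2)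
    (sq_nonneg (PR G R y v - Av G y v / D))

/-- deterministic part -/
theorem RSET_det (G : SimpleGraph V) (D m : ℕ) (hG : Reg G D) (hD : 1 ≤ D) (hm : 1 ≤ m)
    (R : Finset V) (hR : GoodR G D m R) (y : V → ℝ) (ρ : ℝ) (hSm : Sm G D y ≤ 22500 * m / D)
    (hQ : ∑ v, (∑ b, ((if b ∈ R then 1 else 0) - ρ) * RSET_c G D y b v) ^ 2 ≤
      3202848 * m ^ 2) :
    S2 (fun v => y v - PR G R y v) ≤ 300000 * m / D := by
  have hD0 : (0 : ℝ) < D := by exact_mod_cast hD
  have hm0 : (0 : ℝ) < m := by exact_mod_cast hm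
  have h1 := RSET_final G D m hG hD hm R hR y ρ _ hQ
  have h2 : S2 (fun v => y v - PR G R y v) ≤
      3 * Sm G D y + 3 / 2 * ∑ v, (PR G R y v - Av G y v / D) ^ 2 := by
    unfold Sm S2
    rw [Finset.mul_sum, Finset.mul_sum, ← Finset.sum_add_distrib]
    refine Finset.sum_le_sum fun v _ => ?_
    nlinarith [sq_nonneg (2 * (y v - Av G y v / D) + (PR G R y v - Av G y v / D))]
  have h3 : 3202848 * (m : ℝ) ^ 2 / (25 * (m * D)) = 128113.92 * m / D := by
    field_simp
    norm_num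
  rw [h3] at h1
  have h4 : (22500 : ℝ) * m / D = 22500 * (m / D) := by ring
  have h5 : (128113.92 : ℝ) * m / D = 128113.92 * (m / D) := by ring
  have h6 : (300000 : ℝ) * m / D = 300000 * (m / D) := by ring
  have h7 : (0 : ℝ) ≤ m / D := by positivity
  rw [h4] at hSm
  rw [h5] at h1
  rw [h6]
  linarith

/-- the two square roots -/
theorem RSET_sqrt (D m : ℕ) (hD : 1 ≤ D) :
    Real.sqrt (m / D) * D = Real.sqrt (m * D) ∧ Real.sqrt (m / D) * Real.sqrt (m * D) = m ∧
      Real.sqrt (m * D) ^ 2 = m * D := by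
  have hD0 : (0 : ℝ) < D := by exact_mod_cast hD
  have h1 : Real.sqrt (m / D) * D = Real.sqrt (m * D) := by
    have : (m * D : ℝ) = m / D * (D : ℝ) ^ 2 := by field_simp
    rw [this, Real.sqrt_mul (by positivity), Real.sqrt_sq hD0.le]
  refine ⟨h1, ?_, Real.sq_sqrt (by positivity)⟩
  rw [← h1, ← mul_assoc, Real.mul_self_sqrt (by positivity)]
  field_simp

/-- the hypotheses of the vector Bernstein inequality -/
theorem RSET_hyp (G : SimpleGraph V) (D m : ℕ) (hG : Reg G D) (hD : 1 ≤ D) (y : V → ℝ)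
    (hy : ∀ v, |y v| ≤ 11 / Real.sqrt D) (hS : S2 y ≤ 144) (hSm : Sm G D y ≤ 22500 * m / D) :
    (∀ b, ∑ v, RSET_c G D y b v ^ 2 ≤ 484) ∧
      ∑ b, ∑ v, RSET_c G D y b v ^ 2 ≤ 3600 * Real.sqrt (m * D) := by
  have hD0 : (0 : ℝ) < D := by exact_mod_cast hD
  have hsD : 0 < Real.sqrt D := Real.sqrt_pos.mpr hD0
  have hsD2 : Real.sqrt D ^ 2 = D := Real.sq_sqrt hD0.le
  refine ⟨fun b => ?_, ?_⟩
  · have hA : ∀ v, |Av G y v / D| ≤ 11 / Real.sqrt D := by
      intro v
      rw [abs_div, abs_of_pos hD0, div_le_iff₀ hD0]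
      unfold Av
      calc |∑ u ∈ Nb G v, y u| ≤ ∑ u ∈ Nb G v, |y u| := Finset.abs_sum_le_sum_abs _ _
        _ ≤ ∑ u ∈ Nb G v, 11 / Real.sqrt D := Finset.sum_le_sum fun u _ => hy u
        _ = 11 / Real.sqrt D * D := by
            rw [Finset.sum_const, nsmul_eq_mul, hG v]
            ring
    have h1 : ∀ v, RSET_c G D y b v ^ 2 ≤ if v ∈ Nb G b then (22 / Real.sqrt D) ^ 2 else 0 := by
      intro v
      unfold RSET_c
      by_cases hb : b ∈ Nb G v
      · rw [if_pos hb, if_pos ((RSET_mem G b v).1 hb)]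
        refine sq_le_sq' ?_ ?_
        · have := abs_le.1 (hy b)
          have := abs_le.1 (hA v)
          have h3 : (22 : ℝ) / Real.sqrt D = 11 / Real.sqrt D + 11 / Real.sqrt D := by ring
          linarith
        · have := abs_le.1 (hy b)
          have := abs_le.1 (hA v)
          have h3 : (22 : ℝ) / Real.sqrt D = 11 / Real.sqrt D + 11 / Real.sqrt D := by ring
          linarith
      · rw [if_neg hb, if_neg (fun h => hb ((RSET_mem G b v).2 h))]
        norm_num
    refine le_trans (Finset.sum_le_sum fun v _ => h1 v) ?_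
    rw [← Finset.sum_filter, Finset.sum_const, nsmul_eq_mul]
    have h3 : (univ.filter (fun v => v ∈ Nb G b)) = Nb G b := by ext v; simp
    rw [h3, hG b, div_pow, hsD2]
    have : (D : ℝ) * (22 ^ 2 / D) = 484 := by field_simp; norm_num
    rw [this]
  · rw [RSET_csum G D hG hD]
    have h1 : (∑ v, (y v - Av G y v / D) * (y v + Av G y v / D)) ^ 2 ≤
        Sm G D y * S2 (fun v => y v + Av G y v / D) :=
      Finset.sum_mul_sq_le_sq_mul_sq univ _ _
    have h2 : S2 (fun v => y v + Av G y v / D) ≤ 576 := by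
      have h3 : S2 (fun v => y v + Av G y v / D) ≤ 2 * S2 y + 2 * ∑ v, (Av G y v / D) ^ 2 := by
        unfold S2
        rw [Finset.mul_sum, Finset.mul_sum, ← Finset.sum_add_distrib]
        refine Finset.sum_le_sum fun v _ => ?_
        nlinarith [sq_nonneg (y v - Av G y v / D)]
      have h4 := RSET_contr G D hG hD y
      linarith
    have h0 : 0 ≤ S2 (fun v => y v + Av G y v / D) := Finset.sum_nonneg fun v _ => sq_nonneg _
    have h5 : (∑ v, (y v - Av G y v / D) * (y v + Av G y v / D)) ^ 2 ≤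
        (3600 * Real.sqrt (m / D)) ^ 2 := by
      rw [mul_pow, Real.sq_sqrt (by positivity)]
      calc (∑ v, (y v - Av G y v / D) * (y v + Av G y v / D)) ^ 2
          ≤ Sm G D y * S2 (fun v => y v + Av G y v / D) := h1
        _ ≤ (22500 * m / D) * 576 := mul_le_mul hSm h2 h0 (by positivity)
        _ = 3600 ^ 2 * (m / D) := by ring
    have h6 := abs_le_of_sq_le_sq h5 (by positivity)
    have h7 : ∑ v, (y v - Av G y v / D) * (y v + Av G y v / D) ≤ 3600 * Real.sqrt (m / D) :=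
      le_trans (le_abs_self _) h6
    calc (D : ℝ) * ∑ v, (y v - Av G y v / D) * (y v + Av G y v / D)
        ≤ D * (3600 * Real.sqrt (m / D)) := mul_le_mul_of_nonneg_left h7 hD0.le
      _ = 3600 * Real.sqrt (m * D) := by
          rw [← (RSET_sqrt D m hD).1]
          ring

theorem RSET_PP_mono {ι κ : Type} [Fintype ι] [Fintype κ] (w : ι → κ → ℝ)
    (hw : ∀ i k, 0 ≤ w i k) {A B : Set (ι → κ)} (h : A ⊆ B) : PP w A ≤ PP w B := by
  unfold PP
  refine Finset.sum_le_sum fun x _ => ?_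
  have h0 : 0 ≤ ∏ i, w i (x i) := Finset.prod_nonneg fun i _ => hw i (x i)
  by_cases hx : x ∈ A
  · rw [if_pos hx, if_pos (h hx)]
  · rw [if_neg hx]
    split_ifs
    · exact h0
    · exact le_rfl

theorem RSET_PP_empty {ι κ : Type} [Fintype ι] [Fintype κ] (w : ι → κ → ℝ)
    {A : Set (ι → κ)} (h : ∀ x, x ∉ A) : PP w A = 0 := by
  unfold PP
  exact Finset.sum_eq_zero fun x _ => if_neg (h x)

/-- weights of the random set -/
def RSET_w {B : Type} (ρ : ℝ) : B → Bool → ℝ := fun (_ : B) (t : Bool) => if t = true then ρ else 1 - ρ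

/-- the bad event of the triple `(p, s, u)` -/
def RSET_E (G : SimpleGraph V) (D m : ℕ) (ρ : ℝ) (p : (V → Bool) × (V → Bool)) (s : Bool)
    (u : V) : Set (V → Bool) :=
  {x | GoodPair G D m p.1 p.2 ∧ Ve p.1 p.2 s u ∧ ∃ g : V → ℝ,
    IsPot G p.1 p.2 s (Real.sqrt D) (dl u) g ∧
    3202848 * (m : ℝ) ^ 2 < ∑ v, (∑ b, ((if x b = true then 1 else 0) - ρ) *
      RSET_c G D (Av G g) b v) ^ 2}

/-- the bad event of the pair `p` -/
def RSET_F (G : SimpleGraph V) (D m : ℕ) (ρ : ℝ) (p : (V → Bool) × (V → Bool)) :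
    Set (V → Bool) :=
  {x | ∃ s u, x ∈ RSET_E G D m ρ p s u}

theorem RSET_prob (hG : Green_stmt) (hV : VecBern_stmt) (hL : Lap_stmt) (G : SimpleGraph V)
    (D m : ℕ) (ρ : ℝ) (hreg : Reg G D) (hm : 1 ≤ m) (hmD : 144 * m ≤ D) (h0 : 0 ≤ ρ) (h1 : ρ ≤ 1)
    (hρ : ρ * Real.sqrt (m * D) = 10 * m)
    (p : (V → Bool) × (V → Bool)) (s : Bool) (u : V) :
    PP (RSET_w ρ) (RSET_E G D m ρ p s u) ≤ Real.exp (-(2 * m)) := by
  have hw : ∀ (i : V) k, 0 ≤ RSET_w ρ i k := by
    intro i k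
    unfold RSET_w
    split_ifs
    · exact h0
    · linarith
  have hm0 : (1 : ℝ) ≤ m := by exact_mod_cast hm
  by_cases hgp : GoodPair G D m p.1 p.2
  swap
  · rw [RSET_PP_empty _ (fun x hx => hgp hx.1)]
    exact (Real.exp_pos _).le
  by_cases hve : Ve p.1 p.2 s u
  swap
  · rw [RSET_PP_empty _ (fun x hx => hve hx.2.1)]
    exact (Real.exp_pos _).le
  have hD : 1 ≤ D := le_trans (by omega) hmD
  have hK : 0 < Real.sqrt D := Real.sqrt_pos.mpr (by exact_mod_cast hD)
  obtain ⟨hex, huniq, -⟩ := hL V G p.1 p.2 s (Real.sqrt D) hK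
  obtain ⟨g, hg⟩ := hex (dl u)
  obtain ⟨-, -, hy, hS, hSm⟩ := hG V G D m p.1 p.2 s u g hreg hm hmD hgp hve hg
  obtain ⟨hc1, hc2⟩ := RSET_hyp G D m hreg hD (Av G g) hy hS hSm
  have hB := hV V V (RSET_c G D (Av G g)) ρ 484 (3600 * Real.sqrt (m * D)) m hm h0 h1
    (by norm_num) hc1 hc2
  refine le_trans (RSET_PP_mono _ hw ?_) hB
  rintro x ⟨-, -, g', hg', hx⟩
  have hgg : g' = g := huniq _ _ _ hg' hg
  rw [hgg] at hx
  refine lt_of_le_of_lt (le_of_eq ?_) hx
  have : (11 : ℝ) * m * ρ * (3600 * Real.sqrt (m * D)) = 11 * m * 3600 * (ρ * Real.sqrt (m * D)) := by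
    ring
  rw [this, hρ]
  ring

theorem RSET_NR (hH : Hoeffding_stmt) (G : SimpleGraph V)
    (D m : ℕ) (ρ : ℝ) (hreg : Reg G D) (hD : 1 ≤ D) (h0 : 0 ≤ ρ) (h1 : ρ ≤ 1) (v : V) :
    PP (RSET_w ρ) {x : V → Bool | 5 * Real.sqrt (m * D) ≤
      |∑ b ∈ Nb G v, ((if x b = true then 1 else 0) - ρ)|} ≤
      2 * Real.exp (-(25 / 2 * m)) := by
  have hD0 : (0 : ℝ) < D := by exact_mod_cast hD
  have hw : ∀ (i : V) k, 0 ≤ RSET_w ρ i k := by
    intro i k
    unfold RSET_w
    split_ifs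
    · exact h0
    · linarith
  have h := hH V Bool (RSET_w ρ) (Nb G v) (fun _ t => (if t = true then 1 else 0) - ρ) 1
    (5 * Real.sqrt (m * D)) hw (by
      intro i
      simp [RSET_w]) one_pos (by positivity) (by
      intro i k
      rw [abs_le]
      split_ifs <;> constructor <;> linarith) (by
      intro i
      simp [RSET_w]
      ring)
  refine h.trans (le_of_eq ?_)
  rw [hreg v, mul_pow, Real.sq_sqrt (by positivity)]
  congr 2
  field_simp
  ring

theorem lp_RSET (hG : Green_stmt) (hV : VecBern_stmt) (hL : Lap_stmt) (hU : PPUnion_stmt)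
    (hH : Hoeffding_stmt) : RSet_stmt := by
  intro V _ G D m hreg hm hcard hmD
  have hD : 1 ≤ D := le_trans (by omega) hmD
  have hm1 : 1 ≤ m := by omega
  have hD0 : (0 : ℝ) < D := by exact_mod_cast hD
  have hm0 : (60 : ℝ) ≤ m := by exact_mod_cast hm
  have hmD' : (10 ^ 4 * m : ℝ) ≤ D := by exact_mod_cast hmD
  obtain ⟨hq1, hq2, hq3⟩ := RSET_sqrt D m hD
  set ρ : ℝ := 10 * Real.sqrt (m / D) with hρ
  have hρ0 : 0 ≤ ρ := by positivity
  have hρ1 : ρ ≤ 1 := by
    have h1 : Real.sqrt (m / D) ≤ Real.sqrt ((1 / 100) ^ 2) := by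
      refine Real.sqrt_le_sqrt ?_
      rw [div_le_iff₀ hD0]
      linarith
    rw [Real.sqrt_sq (by norm_num)] at h1
    rw [hρ]
    linarith
  have hρ2 : ρ * Real.sqrt (m * D) = 10 * m := by
    rw [hρ, mul_assoc, hq2]
  have hρD : ρ * D = 10 * Real.sqrt (m * D) := by
    rw [hρ, mul_assoc, hq1]
  have hw : ∀ (i : V) k, 0 ≤ RSET_w ρ i k := by
    intro i k
    unfold RSET_w
    split_ifs
    · exact hρ0
    · linarith
  have hw1 : ∀ i : V, ∑ k, RSET_w ρ i k = 1 := by
    intro i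
    simp [RSET_w]
  -- the events
  set A : Set (V → Bool) := {x | 4 ^ Fintype.card V * Real.exp (-m) ≤
    ((univ.filter (fun p : (V → Bool) × (V → Bool) =>
      x ∈ (RSET_F G D m ρ p))).card : ℝ)} with hA
  have ha : 0 < (4 : ℝ) ^ Fintype.card V * Real.exp (-m) := by positivity
  have hcard4 : (Fintype.card ((V → Bool) × (V → Bool)) : ℝ) = 4 ^ Fintype.card V := by
    rw [Fintype.card_prod, Fintype.card_fun, Fintype.card_bool]
    push_cast
    rw [← mul_pow]
    norm_num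
  have hPA : PP (RSET_w ρ) A ≤ 2 * Fintype.card V * Real.exp (-m) := by
    have h1 := B1a_Markov V Bool ((V → Bool) × (V → Bool)) (RSET_w ρ)
      (RSET_F G D m ρ) _ hw hw1 ha
    refine h1.trans ?_
    rw [div_le_iff₀ ha]
    have h2 : ∀ p : (V → Bool) × (V → Bool), PP (RSET_w ρ) (RSET_F G D m ρ p) ≤
        2 * Fintype.card V * Real.exp (-(2 * m)) := by
      intro p
      have h3 := hU V Bool (Bool × V) (RSET_w ρ) (RSET_F G D m ρ p)
        (fun j => RSET_E G D m ρ p j.1 j.2) hw (by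
          rintro x ⟨s, u, hx⟩
          exact ⟨(s, u), hx⟩)
      refine h3.trans ?_
      refine le_trans (Finset.sum_le_sum fun j _ =>
        RSET_prob hG hV hL G D m ρ hreg hm1 (by omega) hρ0 hρ1 hρ2 p j.1 j.2) ?_
      rw [Finset.sum_const, nsmul_eq_mul, Finset.card_univ, Fintype.card_prod, Fintype.card_bool]
      push_cast
      exact le_rfl
    calc ∑ p : (V → Bool) × (V → Bool), PP (RSET_w ρ) (RSET_F G D m ρ p)
        ≤ ∑ p : (V → Bool) × (V → Bool), 2 * Fintype.card V * Real.exp (-(2 * m)) :=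
          Finset.sum_le_sum fun p _ => h2 p
      _ = 4 ^ Fintype.card V * (2 * Fintype.card V * Real.exp (-(2 * m))) := by
          rw [Finset.sum_const, nsmul_eq_mul, Finset.card_univ, hcard4]
      _ = 2 * Fintype.card V * Real.exp (-m) * (4 ^ Fintype.card V * Real.exp (-m)) := by
          have : Real.exp (-(2 * m)) = Real.exp (-(m : ℝ)) * Real.exp (-m) := by
            rw [← Real.exp_add]
            congr 1
            ring
          rw [this]
          ring
  have hsum : ∑ j : Option V, PP (RSET_w ρ) (Option.elim j A (fun v =>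
      {x : V → Bool | 5 * Real.sqrt (m * D) ≤
        |∑ b ∈ Nb G v, ((if x b = true then 1 else 0) - ρ)|})) < 1 := by
    rw [Fintype.sum_option]
    simp only [Option.elim]
    have h1 : ∑ v : V, PP (RSET_w ρ) {x : V → Bool | 5 * Real.sqrt (m * D) ≤
        |∑ b ∈ Nb G v, ((if x b = true then 1 else 0) - ρ)|} ≤
        Fintype.card V * (2 * Real.exp (-(25 / 2 * m))) := by
      refine le_trans (Finset.sum_le_sum fun v _ => RSET_NR hH G D m ρ hreg hD hρ0 hρ1 v) ?_
      rw [Finset.sum_const, nsmul_eq_mul, Finset.card_univ]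
    have h2 : Real.exp (-(25 / 2 * m)) ≤ Real.exp (-(m : ℝ)) := Real.exp_le_exp.2 (by linarith)
    have h3 : (Fintype.card V : ℝ) * Real.exp (-(m : ℝ)) ≤ Real.exp (-59) := by
      calc (Fintype.card V : ℝ) * Real.exp (-(m : ℝ)) ≤ Real.exp (m / 100) * Real.exp (-m) :=
            mul_le_mul_of_nonneg_right hcard (Real.exp_pos _).le
        _ = Real.exp (m / 100 - m) := by
            rw [← Real.exp_add]
            congr 1
        _ ≤ Real.exp (-59) := Real.exp_le_exp.2 (by linarith)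
    have h4 : Real.exp (-59) < 1 / 4 := by
      have h5 : Real.exp (-59) = (Real.exp 59)⁻¹ := Real.exp_neg _
      have h6 : (59 : ℝ) + 1 ≤ Real.exp 59 := Real.add_one_le_exp 59
      rw [h5, inv_lt_comm₀ (Real.exp_pos _) (by norm_num)]
      linarith
    have h7 : (Fintype.card V : ℝ) * Real.exp (-(25 / 2 * m)) ≤
        Fintype.card V * Real.exp (-(m : ℝ)) := mul_le_mul_of_nonneg_left h2 (by positivity)
    linarith
  obtain ⟨x, hx, -⟩ := B1a_Avoid V Bool (Option V) (RSET_w ρ) (fun j => Option.elim j A (fun v =>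
      {x : V → Bool | 5 * Real.sqrt (m * D) ≤
        |∑ b ∈ Nb G v, ((if x b = true then 1 else 0) - ρ)|})) hw hw1 hsum
  set R : Finset V := univ.filter (fun b => x b = true) with hR
  have hxR : ∀ b, b ∈ R ↔ x b = true := by
    intro b
    simp [hR]
  have hgoodR : GoodR G D m R := by
    intro v
    have h1 : x ∉ {x : V → Bool | 5 * Real.sqrt (m * D) ≤
        |∑ b ∈ Nb G v, ((if x b = true then 1 else 0) - ρ)|} := hx (some v)
    rw [Set.mem_ofPred_eq, not_le, Finset.sum_sub_distrib, Finset.sum_const, nsmul_eq_mul, hreg v,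
      mul_comm (D : ℝ) ρ, hρD] at h1
    have h2 : ∑ b ∈ Nb G v, (if x b = true then (1 : ℝ) else 0) = NR G R v := by
      unfold NR
      rw [← Finset.sum_filter, Finset.sum_const, nsmul_eq_mul, mul_one]
      congr 2
      ext b
      simp [hR]
    rw [h2, abs_lt] at h1
    have h3 : 0 ≤ Real.sqrt (m * D) := Real.sqrt_nonneg _
    constructor <;> linarith [h1.1, h1.2]
  refine ⟨R, hgoodR, ?_⟩
  have h1 : x ∉ A := hx none
  rw [hA, Set.mem_ofPred_eq, not_le] at h1
  refine le_trans ?_ h1.le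
  have h2 : (univ.filter (fun p : (V → Bool) × (V → Bool) => GoodPair G D m p.1 p.2 ∧
        ¬ GoodRP G D m R p.1 p.2)) ⊆ (univ.filter (fun p : (V → Bool) × (V → Bool) =>
      x ∈ (RSET_F G D m ρ p))) := by
    intro p hp
    rw [Finset.mem_filter] at hp ⊢
    refine ⟨Finset.mem_univ _, ?_⟩
    obtain ⟨-, hgp, hbad⟩ := hp
    unfold GoodRP at hbad
    push Not at hbad
    obtain ⟨s, u, g, hve, hg, hbig⟩ := hbad
    refine ⟨s, u, hgp, hve, g, hg, ?_⟩
    by_contra hcon
    rw [not_lt] at hcon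
    obtain ⟨-, -, hy, hS, hSm⟩ := hG V G D m p.1 p.2 s u g hreg hm1 (by omega) hgp hve hg
    have h3 := RSET_det G D m hreg hD hm1 R hgoodR (Av G g) ρ hSm (by
      refine le_trans (le_of_eq ?_) hcon
      refine Finset.sum_congr rfl fun v _ => ?_
      congr 1
      refine Finset.sum_congr rfl fun b _ => ?_
      rw [if_congr (hxR b) rfl rfl])
    linarith
  exact_mod_cast Finset.card_le_card h2

end

end Pool.Agent.Helper15.LP
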